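import Pool.Agent.W251.EX.Defs2

/-!
# Project EX, MAINY: the means are small at almost all scales
-/

set_option autoImplicit false

namespace Pool.Agent.W460.EX

open Finset Filter Pool.Agent.W251.EX
open Pool.Agent.W78.GA (Qd nm)
open Pool.Agent.W78.EC (Gi PQ S_PCNT)
open Pool.Agent.W251.GX (Cm)

theorem harm_le (N : ℕ) : ∑ X ∈ Icc 1 N, 1 / (X : ℝ) ≤ 1 + Real.log N := by
  have h := harmonic_le_one_add_log N
  rw [harmonic_eq_sum_Icc] at h
  push_cast at h
  refine le_trans (le_of_eq ?_) h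
  exact Finset.sum_congr rfl fun X _ => one_div _

theorem g2_le {N : ℕ} {τ : ℂ} {F₁ F₂ : Gi → ℂ} (hP : Pr N τ F₁ F₂) (R : Gi → Gi → Prop)
    (e : Gi × Gi) : ‖g2 F₁ F₂ R e‖ ≤ 1 := by
  have hn : ∀ z : ℂ, z ^ N = 1 → ‖z‖ = 1 := fun z hz =>
    Complex.norm_eq_one_of_pow_eq_one hz (by have := hP.cm₁.pos; omega)
  unfold g2
  split_ifs
  · rw [norm_mul, hn _ (hP.cm₁.pow _), hn _ (hP.cm₂.pow _), one_mul]
  · rw [norm_zero]
    exact zero_le_one

open Classical in
/-- the natural mean at scale `x` -/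
noncomputable def aa (A : ℝ → ℂ) (x : ℝ) : ℂ := if 0 < x then A x / (x : ℂ) else 0

theorem aa_of {A : ℝ → ℂ} {x : ℝ} (hx : 0 < x) : aa A x = A x / (x : ℂ) := if_pos hx

theorem sv_aa {A : ℝ → ℂ} {C : ℝ} (hC : 0 < C) (hb : ∀ X : ℝ, 0 < X → ‖A X‖ ≤ C * X)
    (hr : ∀ δ : ℝ, 0 < δ → δ ≤ 1 → ∃ X₀ : ℝ, ∀ X X' : ℝ, X₀ ≤ X → X ≤ X' → X' ≤ (1 + δ) * X →
      ‖A X' - A X‖ ≤ C * δ * X) : Sv (aa A) (2 * C) := by
  constructor
  · intro x
    by_cases hx : 0 < x
    · rw [aa_of hx, norm_div, Complex.norm_real, Real.norm_of_nonneg hx.le, div_le_iff₀ hx]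
      have := hb x hx
      nlinarith
    · have : aa A x = 0 := if_neg hx
      rw [this, norm_zero]
      linarith
  · intro δ h0 h1
    obtain ⟨X₀, hX₀⟩ := hr δ h0 h1
    refine ⟨max X₀ 1, fun x x' hx hxx hx' => ?_⟩
    have hx0 : 0 < x := lt_of_lt_of_le one_pos ((le_max_right _ _).trans hx)
    have hx0' : 0 < x' := hx0.trans_le hxx
    have h2 := hX₀ x x' ((le_max_left _ _).trans hx) hxx hx'
    have h3 := hb x hx0
    have e1 : aa A x' - aa A x = (A x' - A x) / (x' : ℂ) - A x * (((x' - x) / (x * x') : ℝ) : ℂ) := by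
      rw [aa_of hx0, aa_of hx0']
      have hc1 : (x : ℂ) ≠ 0 := by exact_mod_cast hx0.ne'
      have hc2 : (x' : ℂ) ≠ 0 := by exact_mod_cast hx0'.ne'
      push_cast
      field_simp
      ring
    rw [e1]
    refine (norm_sub_le _ _).trans ?_
    rw [norm_div, norm_mul, Complex.norm_real, Complex.norm_real, Real.norm_of_nonneg hx0'.le,
      Real.norm_of_nonneg (div_nonneg (by linarith) (by positivity))]
    have h4 : ‖A x' - A x‖ / x' ≤ C * δ := by
      rw [div_le_iff₀ hx0']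
      refine h2.trans ?_
      gcongr
    have h5 : ‖A x‖ * ((x' - x) / (x * x')) ≤ C * δ := by
      calc ‖A x‖ * ((x' - x) / (x * x')) ≤ C * x * ((x' - x) / (x * x')) := by
            apply mul_le_mul_of_nonneg_right h3
            exact div_nonneg (by linarith) (by positivity)
        _ = C * ((x' - x) / x') := by field_simp
        _ ≤ C * δ := by
            apply mul_le_mul_of_nonneg_left _ hC.le
            rw [div_le_iff₀ hx0']
            nlinarith
    linarith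

theorem mainy (h1 : S_AVX) (h2 : S_REGX) (h3 : S_DCV) (hc : S_PCNT) : S_MAINY := by
  intro N τ F₁ F₂ hP q hq hBt R hR s₁ s₂ s₃ s₄ hs1 hs12 hs2 hs3 hs34 hs4
  have hg : ∀ e, ‖g2 F₁ F₂ R e‖ ≤ 1 := g2_le hP R
  obtain ⟨C, hC, hb, hr⟩ := h2 (g2 F₁ F₂ R) hg s₁ s₂ s₃ s₄ hs1 hs12 hs2 hs3 hs34 hs4
  obtain ⟨c', C', hc', Q₀, hQ₀⟩ := hc
  obtain ⟨A, hA⟩ : ∃ A : ℝ → ℂ, A = AG (g2 F₁ F₂ R) s₁ s₂ s₃ s₄ := ⟨_, rfl⟩
  rw [← hA] at hb hr
  have hSv := sv_aa hC hb hr
  intro ε hε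
  have hmain := h3 (aa A) (2 * C) hSv ?_ ε hε
  · obtain ⟨N₀, hN₀⟩ := hmain
    refine ⟨N₀, fun N' hN' => ?_⟩
    refine le_trans (le_of_eq ?_) (hN₀ N' hN')
    refine Finset.sum_congr rfl fun X hX => ?_
    have hX1 : (0 : ℝ) < X := by
      have := (Finset.mem_Icc.1 hX).1
      exact_mod_cast this
    rw [aa_of hX1, hA, norm_div, Complex.norm_real, Real.norm_of_nonneg hX1.le]
    field_simp
  · intro η hη Q₁
    obtain ⟨T, hT⟩ : ∃ T : ℕ, 4 * (C * |C'|) / η ≤ T := exists_nat_ge _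
    obtain ⟨Q₂, N₀, hN₀⟩ := h1 N τ F₁ F₂ hP q hq hBt R hR s₁ s₂ s₃ s₄ hs1 hs12 hs2 hs3 hs34 hs4
      (η / 2) (by positivity) (max (max Q₁ Q₀) (max T 1))
    refine ⟨Q₂, max N₀ 3, fun N' hN' => ?_⟩
    obtain ⟨Q, hQ1, hQ2, hQ3⟩ := hN₀ N' ((le_max_left _ _).trans hN')
    have hN3 : 3 ≤ N' := (le_max_right _ _).trans hN'
    have ha : Q₁ ≤ Q := (le_max_left _ _).trans ((le_max_left _ _).trans hQ1)
    have hb' : Q₀ ≤ Q := (le_max_right _ _).trans ((le_max_left _ _).trans hQ1)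
    have hc'' : T ≤ Q := (le_max_left _ _).trans ((le_max_right _ _).trans hQ1)
    have hd : 1 ≤ Q := (le_max_right _ _).trans ((le_max_right _ _).trans hQ1)
    have hQpos : (0 : ℝ) < Q := by exact_mod_cast hd
    refine ⟨Q, ha, hQ2, ?_⟩
    rw [← hA] at hQ3
    have hlog : 1 ≤ Real.log N' := by
      rw [← Real.log_exp 1]
      apply Real.log_le_log (Real.exp_pos 1)
      have h4 := Real.exp_one_lt_d9
      have h5 : (3 : ℝ) ≤ N' := by exact_mod_cast hN3
      linarith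
    have hmem : ∀ p ∈ PQ Q, Q < p := fun p hp => by
      unfold PQ at hp
      rw [Finset.mem_filter, Finset.mem_Ioc] at hp
      exact hp.1.1
    have hlogp : ∀ p ∈ PQ Q, 0 ≤ Real.log p := fun p _ => Real.log_natCast_nonneg p
    -- the error term
    have hsum : ∀ X : ℕ, 1 ≤ X → 1 / (X : ℝ) * ‖∑ p ∈ PQ Q, (Real.log p : ℂ) *
        aa A ((X : ℝ) / p)‖ ≤ 1 / (X : ℝ) ^ 2 *
          ‖∑ p ∈ PQ Q, ((Real.log p * ((p : ℝ) + 1) : ℝ) : ℂ) * A ((X : ℝ) / p)‖ +
            C * |C'| * (1 / (X : ℝ)) := by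
      intro X hX
      have hX1 : (0 : ℝ) < X := by exact_mod_cast hX
      have hXc : (X : ℂ) ≠ 0 := by
        have : X ≠ 0 := by omega
        exact_mod_cast this
      have e1 : ∑ p ∈ PQ Q, (Real.log p : ℂ) * aa A ((X : ℝ) / p) = (1 / (X : ℂ)) *
          (∑ p ∈ PQ Q, ((Real.log p * ((p : ℝ) + 1) : ℝ) : ℂ) * A ((X : ℝ) / p) -
            ∑ p ∈ PQ Q, (Real.log p : ℂ) * A ((X : ℝ) / p)) := by
        rw [← Finset.sum_sub_distrib, Finset.mul_sum]
        refine Finset.sum_congr rfl fun p hp => ?_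
        have hp1 : 0 < p := by
          have := hmem p hp
          omega
        have hp2 : (0 : ℝ) < p := by exact_mod_cast hp1
        have hp3 : (p : ℂ) ≠ 0 := by
          have : p ≠ 0 := by omega
          exact_mod_cast this
        rw [aa_of (div_pos hX1 hp2)]
        push_cast
        field_simp
        ring
      have e2 : ‖∑ p ∈ PQ Q, (Real.log p : ℂ) * A ((X : ℝ) / p)‖ ≤ C * |C'| * X := by
        calc ‖∑ p ∈ PQ Q, (Real.log p : ℂ) * A ((X : ℝ) / p)‖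
            ≤ ∑ p ∈ PQ Q, ‖(Real.log p : ℂ) * A ((X : ℝ) / p)‖ := norm_sum_le _ _
          _ ≤ ∑ p ∈ PQ Q, Real.log p * (C * (X / Q)) := by
              refine Finset.sum_le_sum fun p hp => ?_
              have hp1 := hmem p hp
              have hp2 : (Q : ℝ) ≤ p := by exact_mod_cast hp1.le
              have hp3 : (0 : ℝ) < p := lt_of_lt_of_le hQpos hp2
              rw [norm_mul, Complex.norm_real, Real.norm_of_nonneg (hlogp p hp)]
              refine mul_le_mul_of_nonneg_left ((hb _ (div_pos hX1 hp3)).trans ?_) (hlogp p hp)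
              gcongr
          _ = (∑ p ∈ PQ Q, Real.log p) * (C * (X / Q)) := by rw [Finset.sum_mul]
          _ ≤ (|C'| * Q) * (C * (X / Q)) := by
              refine mul_le_mul_of_nonneg_right ?_ (by positivity)
              refine ((hQ₀ Q hb').2.2.2).trans ?_
              exact mul_le_mul_of_nonneg_right (le_abs_self _) hQpos.le
          _ = C * |C'| * X := by field_simp
      rw [e1, norm_mul, norm_div, norm_one, Complex.norm_natCast]
      have e3 := norm_sub_le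
        (∑ p ∈ PQ Q, ((Real.log p * ((p : ℝ) + 1) : ℝ) : ℂ) * A ((X : ℝ) / p))
        (∑ p ∈ PQ Q, (Real.log p : ℂ) * A ((X : ℝ) / p))
      have e4 : 1 / (X : ℝ) * (1 / (X : ℝ) *
          ‖∑ p ∈ PQ Q, ((Real.log p * ((p : ℝ) + 1) : ℝ) : ℂ) * A ((X : ℝ) / p) -
            ∑ p ∈ PQ Q, (Real.log p : ℂ) * A ((X : ℝ) / p)‖) ≤ 1 / (X : ℝ) * (1 / (X : ℝ) *
          (‖∑ p ∈ PQ Q, ((Real.log p * ((p : ℝ) + 1) : ℝ) : ℂ) * A ((X : ℝ) / p)‖ +
            C * |C'| * X)) := by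
        have h0 : 0 ≤ 1 / (X : ℝ) := by positivity
        exact mul_le_mul_of_nonneg_left (mul_le_mul_of_nonneg_left (e3.trans (by linarith)) h0) h0
      refine e4.trans (le_of_eq ?_)
      field_simp
    calc ∑ X ∈ Icc 1 N', 1 / (X : ℝ) * ‖∑ p ∈ PQ Q, (Real.log p : ℂ) * aa A ((X : ℝ) / p)‖
        ≤ ∑ X ∈ Icc 1 N', (1 / (X : ℝ) ^ 2 *
          ‖∑ p ∈ PQ Q, ((Real.log p * ((p : ℝ) + 1) : ℝ) : ℂ) * A ((X : ℝ) / p)‖ +
            C * |C'| * (1 / (X : ℝ))) :=
          Finset.sum_le_sum fun X hX => hsum X (Finset.mem_Icc.1 hX).1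
      _ = ∑ X ∈ Icc 1 N', 1 / (X : ℝ) ^ 2 *
          ‖∑ p ∈ PQ Q, ((Real.log p * ((p : ℝ) + 1) : ℝ) : ℂ) * A ((X : ℝ) / p)‖ +
            C * |C'| * ∑ X ∈ Icc 1 N', 1 / (X : ℝ) := by
          rw [Finset.sum_add_distrib, ← Finset.mul_sum]
      _ ≤ η / 2 * Q * Real.log N' + C * |C'| * (1 + Real.log N') := by
          have h0 : 0 ≤ C * |C'| := by positivity
          exact add_le_add hQ3 (mul_le_mul_of_nonneg_left (harm_le N') h0)
      _ ≤ η * Q * Real.log N' := by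
          have h0 : 0 ≤ C * |C'| := by positivity
          have h4 : 4 * (C * |C'|) ≤ η * Q := by
            rw [div_le_iff₀ hη] at hT
            have h5 : (T : ℝ) ≤ Q := by exact_mod_cast hc''
            calc 4 * (C * |C'|) ≤ T * η := hT
              _ ≤ Q * η := by gcongr
              _ = η * Q := mul_comm _ _
          have h5 : C * |C'| * (1 + Real.log N') ≤ C * |C'| * (2 * Real.log N') := by
            apply mul_le_mul_of_nonneg_left _ h0
            linarith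
          have h6 : 4 * (C * |C'|) * Real.log N' ≤ η * Q * Real.log N' := by
            apply mul_le_mul_of_nonneg_right h4
            linarith
          linarith

end Pool.Agent.W460.EX
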