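import Pool.Agent.W251.EX.Defs3
import Pool.Agent.W588.EX.CHR
import Pool.Agent.W692.EX.Finy

/-!
# Project EX, part 3, CHRW: means over the pairs in windows at almost all scales
-/

set_option autoImplicit false

namespace Pool.Agent.W460.EXW

open Finset Filter
open Pool.Agent.W78.GA (Qd nm dt ip dedge)
open Pool.Agent.W78.EC (Gi SP S_CORR S_SCNT)
open Pool.Agent.W251.EX
open Pool.Agent.W588.EX
open Pool.Agent.W692.EX (card3)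
open Pool.Agent.W681.EC (sum_inv_le sum_inv_sq_le mem_SP)

open scoped Classical in
/-- `S_CORR` for complex functions -/
theorem corrC (h2 : S_CORR) (X : ℕ) (hX : 1 ≤ X) (G : ℕ → ℕ → ℂ) :
    ∑ e ∈ (dedge 0 1 (X : ℝ)).filter (fun e => 0 < ip e.1 e.2), G (nm e.1) (nm e.2) =
      4 * ∑ p ∈ (SP X).filter (fun p => p ≠ (1, 1)), G p.1 p.2 := by
  have hX' : (1 : ℝ) ≤ X := by exact_mod_cast hX
  have hr := h2 X (fun x y => (G x y).re) hX'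
  have hi := h2 X (fun x y => (G x y).im) hX'
  rw [Nat.floor_natCast] at hr hi
  have h4 : (4 : ℂ) = ((4 : ℝ) : ℂ) := by norm_num
  rw [h4]
  apply Complex.ext
  · rw [Complex.re_sum, hr, Complex.re_ofReal_mul, Complex.re_sum]
  · rw [Complex.im_sum, hi, Complex.im_ofReal_mul, Complex.im_sum]

open scoped Classical in
theorem AG_win (h2 : S_CORR) (F : ℕ → ℕ → ℂ) (a b c d : ℝ) (X : ℕ) (hX : 1 ≤ X) :
    AG (fun e => F (nm e.1) (nm e.2)) a b c d X = 4 * ∑ p ∈ (SP X).filter (fun p => p ≠ (1, 1)),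
      if a * X < (p.1 : ℝ) ∧ (p.1 : ℝ) ≤ b * X ∧ c * X < (p.2 : ℝ) ∧ (p.2 : ℝ) ≤ d * X then
        F p.1 p.2 else 0 := by
  rw [← corrC h2 X hX (fun x y => if a * X < (x : ℝ) ∧ (x : ℝ) ≤ b * X ∧ c * X < (y : ℝ) ∧
    (y : ℝ) ≤ d * X then F x y else 0)]
  unfold AG
  simp only [Finset.sum_filter]
  apply sum_congr rfl
  intro e he
  by_cases c1 : 0 < ip e.1 e.2
  · by_cases c2 : a * X < (nm e.1 : ℝ) ∧ (nm e.1 : ℝ) ≤ b * X ∧ c * X < (nm e.2 : ℝ) ∧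
      (nm e.2 : ℝ) ≤ d * X
    · rw [if_pos ⟨c1, c2⟩, if_pos c1, if_pos c2]
    · rw [if_neg (fun h3 => c2 h3.2), if_pos c1, if_neg c2]
  · rw [if_neg (fun h3 => c1 h3.1), if_neg c1]

open scoped Classical in
/-- pairs in a window -/
noncomputable def Win (s₁ s₂ s₃ s₄ : ℝ) (X : ℕ) : Finset (ℕ × ℕ) :=
  (SP X).filter (fun p => s₁ * X < (p.1 : ℝ) ∧ (p.1 : ℝ) ≤ s₂ * X ∧ s₃ * X < (p.2 : ℝ) ∧
    (p.2 : ℝ) ≤ s₄ * X)

theorem mem_Win {s₁ s₂ s₃ s₄ : ℝ} {X : ℕ} {p : ℕ × ℕ} : p ∈ Win s₁ s₂ s₃ s₄ X ↔ p ∈ SP X ∧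
    s₁ * X < (p.1 : ℝ) ∧ (p.1 : ℝ) ≤ s₂ * X ∧ s₃ * X < (p.2 : ℝ) ∧ (p.2 : ℝ) ≤ s₄ * X := by
  unfold Win
  rw [mem_filter]

open scoped Classical in
theorem per_scale (h2 : S_CORR) (C : ℝ) (hC : ∀ m M : ℕ, 1 ≤ m → m ≤ M →
    ((((Icc 1 m) ×ˢ (Icc 1 M)).filter (fun p => ∃ n : ℕ, p.1 * p.2 = n ^ 2 + 1)).card : ℝ) ≤
    C * Real.sqrt (m * M)) (hC0 : 0 ≤ C) (t : ℝ) (ht0 : 0 < t) (ht1 : t ≤ 1)
    (F : ℕ → ℕ → ℂ) (hF : ∀ a b, ‖F a b‖ ≤ 1) (s₁ s₂ s₃ s₄ : ℝ) (X : ℕ) (hX : 1 ≤ X) :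
    ‖∑ p ∈ Win s₁ s₂ s₃ s₄ X, F p.1 p.2‖ ≤ 1 + 2 * C * t * X + 1 / 4 *
      ‖AG (fun e => F (nm e.1) (nm e.2)) (max s₁ (t ^ 2)) s₂ (max s₃ (t ^ 2)) s₄ X‖ := by
  have hXp : (0 : ℝ) ≤ X := Nat.cast_nonneg X
  rw [AG_win h2 F _ _ _ _ X hX, norm_mul]
  have e4 : ‖(4 : ℂ)‖ = 4 := by norm_num
  rw [e4]
  set A := Win s₁ s₂ s₃ s₄ X with hA
  set B := Win (max s₁ (t ^ 2)) s₂ (max s₃ (t ^ 2)) s₄ X with hB
  have hBA : B ⊆ A := by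
    intro p hp
    rw [hB, mem_Win, max_mul_of_nonneg _ _ hXp, max_mul_of_nonneg _ _ hXp, max_lt_iff,
      max_lt_iff] at hp
    rw [hA, mem_Win]
    exact ⟨hp.1, hp.2.1.1, hp.2.2.1, hp.2.2.2.1.1, hp.2.2.2.2⟩
  have hAB : A \ B ⊆ (SP X).filter (fun p => ¬ (t ^ 2 * X < p.1 ∧ t ^ 2 * X < p.2)) := by
    intro p hp
    rw [Finset.mem_sdiff, hA, hB, mem_Win, mem_Win, max_mul_of_nonneg _ _ hXp,
      max_mul_of_nonneg _ _ hXp, max_lt_iff, max_lt_iff] at hp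
    rw [mem_filter]
    refine ⟨hp.1.1, fun h => hp.2 ⟨hp.1.1, ⟨hp.1.2.1, h.1⟩, hp.1.2.2.1, ⟨hp.1.2.2.2.1, h.2⟩,
      hp.1.2.2.2.2⟩⟩
  have e1 := Finset.sum_sdiff (f := fun p : ℕ × ℕ => F p.1 p.2) hBA
  have e2 := Finset.sum_filter_add_sum_filter_not B (fun p : ℕ × ℕ => p ≠ (1, 1))
      (fun p : ℕ × ℕ => F p.1 p.2)
  have b1 : ‖∑ p ∈ B.filter (fun p : ℕ × ℕ => ¬ (p ≠ (1, 1))), F p.1 p.2‖ ≤ 1 := by
    have e2 : B.filter (fun p : ℕ × ℕ => ¬ (p ≠ (1, 1))) ⊆ {(1, 1)} := by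
      intro p hp
      rw [mem_filter, not_not] at hp
      exact mem_singleton.2 hp.2
    refine le_trans (norm_sum_le _ _) ?_
    refine le_trans (Finset.sum_le_sum_of_subset_of_nonneg e2 (fun p _ _ => norm_nonneg _)) ?_
    rw [Finset.sum_singleton]
    exact hF _ _
  have b2 : ∑ p ∈ B.filter (fun p : ℕ × ℕ => p ≠ (1, 1)), F p.1 p.2 =
      ∑ p ∈ (SP X).filter (fun p => p ≠ (1, 1)), if max s₁ (t ^ 2) * X < (p.1 : ℝ) ∧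
        (p.1 : ℝ) ≤ s₂ * X ∧ max s₃ (t ^ 2) * X < (p.2 : ℝ) ∧ (p.2 : ℝ) ≤ s₄ * X then
        F p.1 p.2 else 0 := by
    rw [← Finset.sum_filter]
    refine Finset.sum_congr ?_ fun _ _ => rfl
    ext p
    rw [mem_filter, hB, mem_Win, mem_filter, mem_filter]
    tauto
  have b3 : ‖∑ p ∈ A \ B, F p.1 p.2‖ ≤ 2 * C * t * X := by
    refine le_trans (norm_sum_le _ _) ?_
    refine le_trans (Finset.sum_le_sum (fun p _ => hF p.1 p.2)) ?_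
    rw [Finset.sum_const, nsmul_eq_mul, mul_one]
    refine le_trans ?_ (card3 C hC hC0 t ht0 ht1 X hX)
    exact_mod_cast card_le_card hAB
  rw [← e1, ← e2, ← b2]
  refine le_trans (norm_add_le _ _) ?_
  refine le_trans (add_le_add b3 ((norm_add_le _ _).trans (add_le_add le_rfl b1))) ?_
  linarith

/-- from windows away from `0` to all windows -/
theorem finyw (h2 : S_CORR) (h3 : S_SCNT) (F : ℕ → ℕ → ℂ) (hF : ∀ a b, ‖F a b‖ ≤ 1)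
    (s₁ s₂ s₃ s₄ : ℝ) (hs1 : 0 ≤ s₁) (hs12 : s₁ < s₂) (hs3 : 0 ≤ s₃) (hs34 : s₃ < s₄)
    (hyp : ∀ σ₁ σ₃ : ℝ, 0 < σ₁ → σ₁ < s₂ → 0 < σ₃ → σ₃ < s₄ → ∀ ε : ℝ, 0 < ε →
      ∃ N₀ : ℕ, ∀ N : ℕ, N₀ ≤ N → ∑ X ∈ Icc 1 N, 1 / (X : ℝ) ^ 2 *
        ‖AG (fun e => F (nm e.1) (nm e.2)) σ₁ s₂ σ₃ s₄ X‖ ≤ ε * Real.log N)
    (ε : ℝ) (hε : 0 < ε) : ∃ N₀ : ℕ, ∀ N : ℕ, N₀ ≤ N →
      ∑ X ∈ Icc 1 N, 1 / (X : ℝ) ^ 2 * ‖∑ p ∈ Win s₁ s₂ s₃ s₄ X, F p.1 p.2‖ ≤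
        ε * Real.log N := by
  obtain ⟨C, hC⟩ := h3
  have hC0 : 0 ≤ C := by
    have h := hC 1 1 le_rfl le_rfl
    have h4 : (0 : ℝ) ≤ C * Real.sqrt ((1 : ℕ) * (1 : ℕ)) := le_trans (Nat.cast_nonneg _) h
    simpa using h4
  set t : ℝ := min (min (1 / 2) (ε / (8 * (C + 1)))) (min s₂ s₄) with ht
  have ht0 : 0 < t := lt_min (lt_min (by norm_num) (by positivity))
    (lt_min (lt_of_le_of_lt hs1 hs12) (lt_of_le_of_lt hs3 hs34))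
  have hlt : t < 1 := lt_of_le_of_lt ((min_le_left _ _).trans (min_le_left _ _)) (by norm_num)
  have ht1 : t ≤ 1 := hlt.le
  have htt : t ^ 2 < t := by nlinarith
  have hts2 : t ≤ s₂ := (min_le_right _ _).trans (min_le_left _ _)
  have hts4 : t ≤ s₄ := (min_le_right _ _).trans (min_le_right _ _)
  have ht2 : 2 * C * t ≤ ε / 4 := by
    have h5 : t ≤ ε / (8 * (C + 1)) := (min_le_left _ _).trans (min_le_right _ _)
    rw [le_div_iff₀ (by positivity)] at h5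
    nlinarith
  obtain ⟨N₀, hN₀⟩ := hyp (max s₁ (t ^ 2)) (max s₃ (t ^ 2)) (lt_max_of_lt_right (by positivity))
    (max_lt hs12 (by linarith)) (lt_max_of_lt_right (by positivity)) (max_lt hs34 (by linarith)) ε hε
  have hlim : Tendsto (fun N : ℕ => Real.log N) atTop atTop :=
    Real.tendsto_log_atTop.comp tendsto_natCast_atTop_atTop
  obtain ⟨N₁, hN₁⟩ := (hlim.eventually_gt_atTop
    ((2 + 2 * C * t) * 4 / ε)).exists_forall_of_atTop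
  refine ⟨max (max N₀ N₁) 2, fun N hN => ?_⟩
  have g1 : N₀ ≤ N := le_trans (le_trans (le_max_left _ _) (le_max_left _ _)) hN
  have g2 : N₁ ≤ N := le_trans (le_trans (le_max_right _ _) (le_max_left _ _)) hN
  have g3 : 2 ≤ N := le_trans (le_max_right _ _) hN
  have g4 := hN₁ N g2
  have g5 := hN₀ N g1
  have hl : 0 < Real.log N := Real.log_pos (by exact_mod_cast g3)
  rw [div_lt_iff₀ hε] at g4
  have k1 : ∑ X ∈ Icc 1 N, 1 / (X : ℝ) ^ 2 * ‖∑ p ∈ Win s₁ s₂ s₃ s₄ X, F p.1 p.2‖ ≤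
      ∑ X ∈ Icc 1 N, 1 / (X : ℝ) ^ 2 * (1 + 2 * C * t * X + 1 / 4 *
      ‖AG (fun e => F (nm e.1) (nm e.2)) (max s₁ (t ^ 2)) s₂ (max s₃ (t ^ 2)) s₄ X‖) := by
    apply Finset.sum_le_sum
    intro X hX
    exact mul_le_mul_of_nonneg_left
      (per_scale h2 C hC hC0 t ht0 ht1 F hF s₁ s₂ s₃ s₄ X (mem_Icc.1 hX).1) (by positivity)
  have k2 : ∑ X ∈ Icc 1 N, 1 / (X : ℝ) ^ 2 * (1 + 2 * C * t * X + 1 / 4 *
      ‖AG (fun e => F (nm e.1) (nm e.2)) (max s₁ (t ^ 2)) s₂ (max s₃ (t ^ 2)) s₄ X‖) =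
      ∑ X ∈ Icc 1 N, 1 / (X : ℝ) ^ 2 + 2 * C * t * ∑ X ∈ Icc 1 N, 1 / (X : ℝ) +
      1 / 4 * ∑ X ∈ Icc 1 N, 1 / (X : ℝ) ^ 2 *
      ‖AG (fun e => F (nm e.1) (nm e.2)) (max s₁ (t ^ 2)) s₂ (max s₃ (t ^ 2)) s₄ X‖ := by
    rw [Finset.mul_sum, Finset.mul_sum, ← Finset.sum_add_distrib, ← Finset.sum_add_distrib]
    apply Finset.sum_congr rfl
    intro X hX
    have hX0 : (X : ℝ) ≠ 0 := by
      have := (mem_Icc.1 hX).1
      positivity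
    field_simp
  have k3 := sum_inv_sq_le N
  have k4 : 2 * C * t * ∑ X ∈ Icc 1 N, 1 / (X : ℝ) ≤ 2 * C * t * (1 + Real.log N) :=
    mul_le_mul_of_nonneg_left (sum_inv_le N) (by positivity)
  have k5 : 2 * C * t * Real.log N ≤ ε / 4 * Real.log N :=
    mul_le_mul_of_nonneg_right ht2 hl.le
  nlinarith

open scoped Classical in
theorem corew (h1 : S_MAINY) (h2 : S_CORR) (h3 : S_SCNT)
    (hb : ∀ (N : ℕ) (b : ℂ), 1 ≤ N → b ^ N = 1 → b ≠ 1 → ∀ (q : ℕ) (β : Gi), 1 ≤ q →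
      Bt (cl q β (fun z => (bO b z).re)) ∧ Bt (cl q β (fun z => (bO b z).im)))
    (k : ℕ) (b₁ b₂ : ℂ) (hk : 1 ≤ k) (hb₁ : b₁ ^ k = 1) (hb₂ : b₂ ^ k = 1) (hne : b₂ ≠ 1)
    (q a r : ℕ) (hq : 1 ≤ q) (sw : Bool) (s₁ s₂ s₃ s₄ : ℝ) (hs1 : 0 ≤ s₁) (hs12 : s₁ < s₂)
    (hs2 : s₂ ≤ 1) (hs3 : 0 ≤ s₃) (hs34 : s₃ < s₄) (hs4 : s₄ ≤ 1) (ε : ℝ) (hε : 0 < ε) :
    ∃ N₀ : ℕ, ∀ N : ℕ, N₀ ≤ N →
    ∑ X ∈ Icc 1 N, 1 / (X : ℝ) ^ 2 * ‖∑ p ∈ Win s₁ s₂ s₃ s₄ X, (if CC q a r sw p.1 p.2 then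
      b₁ ^ ArithmeticFunction.cardFactors p.1 * b₂ ^ ArithmeticFunction.cardFactors p.2 else 0)‖ ≤
      ε * Real.log N := by
  refine finyw h2 h3 (fun x y => if CC q a r sw x y then
      b₁ ^ ArithmeticFunction.cardFactors x * b₂ ^ ArithmeticFunction.cardFactors y else 0) ?_
      s₁ s₂ s₃ s₄ hs1 hs12 hs3 hs34 ?_ ε hε
  · intro x y
    show ‖if CC q a r sw x y then _ else (0 : ℂ)‖ ≤ 1
    split_ifs
    · rw [norm_mul, norm_pow, norm_pow, norm_one_of k b₁ hk hb₁, norm_one_of k b₂ hk hb₂]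
      simp
    · simp
  · intro σ₁ σ₃ hσ1 hσ12 hσ3 hσ34 ε hε
    have hPr : Pr k (b₁ * b₂) (bO b₁) (bO b₂) :=
      ⟨bO_cm k b₁ hk hb₁, bO_cm k b₂ hk hb₂, fun π hπ => by
        unfold bO
        rw [ArithmeticFunction.cardFactors_apply_prime hπ, pow_one, pow_one]⟩
    obtain ⟨N₀, hN₀⟩ := h1 k (b₁ * b₂) (bO b₁) (bO b₂) hPr q hq
      (fun β => hb k b₂ hk hb₂ hne q β hq) (RR q a r sw) (RR_rel q a r sw) σ₁ s₂ σ₃ s₄ hσ1 hσ12 hs2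
      hσ3 hσ34 hs4 ε hε
    refine ⟨N₀, fun N hN => ?_⟩
    have hthis := hN₀ N hN
    have hAG : ∀ X : ℕ, AG (fun e => (fun x y => if CC q a r sw x y then
        b₁ ^ ArithmeticFunction.cardFactors x * b₂ ^ ArithmeticFunction.cardFactors y else 0)
          (nm e.1) (nm e.2)) σ₁ s₂ σ₃ s₄ (X : ℝ) =
        AG (g2 (bO b₁) (bO b₂) (RR q a r sw)) σ₁ s₂ σ₃ s₄ (X : ℝ) := by
      intro X
      unfold AG
      refine sum_congr rfl fun e he => ?_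
      rw [mem_filter] at he
      have hdt : dt e.1 e.2 = 1 := by
        have h3 := he.1
        unfold dedge at h3
        exact (mem_filter.1 h3).2
      unfold g2 bO
      beta_reduce
      have hiff := CC_iff q a r sw e.1 e.2 hdt he.2.1
      by_cases hc : CC q a r sw (nm e.1) (nm e.2)
      · rw [if_pos hc, if_pos (hiff.1 hc)]
      · rw [if_neg hc, if_neg (fun h => hc (hiff.2 h))]
    refine le_trans (le_of_eq (sum_congr rfl fun X _ => ?_)) hthis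
    rw [hAG X]

open scoped Classical in
theorem SW_eq (q a r : ℕ) (s₁ s₂ s₃ s₄ : ℝ) (X : ℕ) :
    SW q a r s₁ s₂ s₃ s₄ X = (Win s₁ s₂ s₃ s₄ X).filter (Cd q a r) := by
  ext p
  unfold SW
  rw [mem_filter, mem_filter, mem_Win]
  tauto

/-- CHRW -/
theorem chrw (h1 : S_MAINY) (h2 : S_CORR) (h3 : S_SCNT)
    (hb : ∀ (N : ℕ) (b : ℂ), 1 ≤ N → b ^ N = 1 → b ≠ 1 → ∀ (q : ℕ) (β : Gi), 1 ≤ q →
      Bt (cl q β (fun z => (bO b z).re)) ∧ Bt (cl q β (fun z => (bO b z).im))) :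
    Pool.Agent.W251.EX.S_CHRW := by
  classical
  intro k b₁ b₂ hk hb₁ hb₂ hne q a r hq s₁ s₂ s₃ s₄ hs1 hs12 hs2 hs3 hs34 hs4 ε hε
  by_cases hb2 : b₂ = 1
  · have hb1 : b₁ ≠ 1 := by
      rcases hne with h | h
      · exact h
      · exact absurd hb2 h
    obtain ⟨N₀, hN₀⟩ := corew h1 h2 h3 hb k b₂ b₁ hk hb₂ hb₁ hb1 q a r hq true s₃ s₄ s₁ s₂
      hs3 hs34 hs4 hs1 hs12 hs2 ε hε
    refine ⟨N₀, fun N hN => le_trans (le_of_eq (sum_congr rfl fun X _ => ?_)) (hN₀ N hN)⟩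
    congr 2
    rw [SW_eq, sum_filter]
    refine sum_nbij' Prod.swap Prod.swap ?_ ?_ (fun p _ => Prod.swap_swap p)
      (fun p _ => Prod.swap_swap p) fun p hp => ?_
    · intro p hp
      rw [mem_Win] at hp ⊢
      exact ⟨SP_swap hp.1, hp.2.2.2.1, hp.2.2.2.2, hp.2.1, hp.2.2.1⟩
    · intro p hp
      rw [mem_Win] at hp ⊢
      exact ⟨SP_swap hp.1, hp.2.2.2.1, hp.2.2.2.2, hp.2.1, hp.2.2.1⟩
    have hiff : CC q a r true p.swap.1 p.swap.2 ↔ Cd q a r p := by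
      unfold CC Cd
      simp only [if_true, Prod.fst_swap, Prod.snd_swap]
      constructor
      · rintro ⟨n, h3, h4, h5⟩
        exact ⟨n, by rw [mul_comm]; exact h3, h4, h5⟩
      · rintro ⟨n, h3, h4, h5⟩
        exact ⟨n, by rw [mul_comm]; exact h3, h4, h5⟩
    by_cases hc : CC q a r true p.swap.1 p.swap.2
    · rw [if_pos hc, if_pos (hiff.1 hc)]
      simp only [Prod.fst_swap, Prod.snd_swap]
      rw [mul_comm]
    · rw [if_neg hc, if_neg (fun h => hc (hiff.2 h))]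
  · obtain ⟨N₀, hN₀⟩ := corew h1 h2 h3 hb k b₁ b₂ hk hb₁ hb₂ hb2 q a r hq false s₁ s₂ s₃ s₄
      hs1 hs12 hs2 hs3 hs34 hs4 ε hε
    refine ⟨N₀, fun N hN => le_trans (le_of_eq (sum_congr rfl fun X _ => ?_)) (hN₀ N hN)⟩
    congr 2
    rw [SW_eq, sum_filter]
    refine sum_congr rfl fun p hp => ?_
    have hiff : CC q a r false p.1 p.2 ↔ Cd q a r p := by
      unfold CC Cd
      simp only [Bool.false_eq_true, if_false]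
    by_cases hc : CC q a r false p.1 p.2
    · rw [if_pos hc, if_pos (hiff.1 hc)]
    · rw [if_neg hc, if_neg (fun h => hc (hiff.2 h))]

end Pool.Agent.W460.EXW
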